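import Pool.Agent.Q140.VFY.Ver

/-!
# Bounds for nondeterministic and interactive algorithms for matrix products
-/

set_option autoImplicit false

namespace Pool.Agent.Q140.VFY

open MvPolynomial Pool.Agent.W966.Mm Pool.Agent.W966.Vf Pool.Agent.W966.Vg
  Pool.Agent.H515R2.MMR

section

variable {K : Type} [Field K] [IsAlgClosed K] [CharZero K] {n m L Q K₀ M : ℕ}

/-- Few correct entries, one candidate. -/
theorem sound_bound (t : QTree K n)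
    (H : DenseFor fun A B : Matrix (Fin n) (Fin n) K => ∃ a : ℕ → K,
      (Outputs t A B Q a L).Nonempty ∧ ∀ C ∈ Outputs t A B Q a L, AgreeIn K₀ C (A * B))
    (hm0 : 0 < m) (hm : m ≤ n) (hdim : Q + n ^ 2 < (n - m + 1) ^ 2 + K₀) :
    (m : ℝ) ^ omega ≤ 2 * L := by
  refine gen_bound (M := 1) t (fun p hp => ?_) hm0 hm hdim
  obtain ⟨A, B, h1, a, ⟨C₀, hC₀⟩, h2⟩ := H p hp
  exact ⟨A, B, h1, a, fun _ => A * B, fun C hC => ⟨0, h2 C hC⟩, C₀, hC₀,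
    fun _ _ _ _ v _ => rfl⟩

/-- A list of candidates which contains the product. -/
theorem list_bound (t : QTree K n)
    (H : DenseFor fun A B : Matrix (Fin n) (Fin n) K => ∃ (a : ℕ → K)
      (𝒞 : Fin M → Matrix (Fin n) (Fin n) K),
      A * B ∈ Outputs t A B Q a L ∧ ∀ C ∈ Outputs t A B Q a L, ∃ i, C = 𝒞 i)
    (hm0 : 0 < m) (hm : m ≤ n) (hdim : Q < (n - m + 1) ^ 2) :
    (m : ℝ) ^ omega ≤ 2 * L := by
  classical
  refine gen_bound (Q := Q) (L := L) (K₀ := n ^ 2) (M := M) t (fun p hp => ?_) hm0 hm (by omega)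
  obtain ⟨A, B, h1, a, 𝒞, h2, h3⟩ := H p hp
  refine ⟨A, B, h1, a, 𝒞, fun C hC => ?_, A * B, h2, fun i S hS hv v hvS => (hv v hvS).symm⟩
  obtain ⟨i, hi⟩ := h3 C hC
  refine ⟨i, ?_⟩
  unfold AgreeIn
  rw [← hi, Finset.filter_true_of_mem fun _ _ => rfl, Finset.card_univ, Fintype.card_prod,
    Fintype.card_fin, sq]

lemma agree_le {C D : Matrix (Fin n) (Fin n) K} (h : AgreeIn K₀ C D) : K₀ ≤ n ^ 2 := by
  unfold AgreeIn at h
  refine h.trans ((Finset.card_le_univ _).trans ?_)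
  rw [Fintype.card_prod, Fintype.card_fin, sq]

/-- an elementary estimate -/
lemma choose_m {ε : ℝ} (hε : 0 < ε) (hn : 0 < n) (hQ : Q + ε * (n : ℝ) ^ 2 ≤ K₀)
    (hK : K₀ ≤ n ^ 2) : ∃ m : ℕ, 0 < m ∧ m ≤ n ∧ Q + n ^ 2 < (n - m + 1) ^ 2 + K₀ ∧
      ε / 2 * n ≤ m := by
  have hn' : (0 : ℝ) < n := by exact_mod_cast hn
  have hK' : (K₀ : ℝ) ≤ (n : ℝ) ^ 2 := by exact_mod_cast hK
  have hε1 : ε ≤ 1 := by
    have h1 : ε * (n : ℝ) ^ 2 ≤ 1 * (n : ℝ) ^ 2 := by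
      have : (0 : ℝ) ≤ Q := Nat.cast_nonneg _
      linarith
    exact le_of_mul_le_mul_right h1 (by positivity)
  refine ⟨⌈ε / 2 * n⌉₊, Nat.ceil_pos.mpr (by positivity), ?_, ?_, Nat.le_ceil _⟩
  · refine Nat.ceil_le.mpr ?_
    nlinarith
  · have h1 : ((⌈ε / 2 * n⌉₊ : ℕ) : ℝ) < ε / 2 * n + 1 := Nat.ceil_lt_add_one (by positivity)
    have hle : ⌈ε / 2 * n⌉₊ ≤ n := Nat.ceil_le.mpr (by nlinarith)
    have h2 : ((n - ⌈ε / 2 * n⌉₊ + 1 : ℕ) : ℝ) = (n : ℝ) - ⌈ε / 2 * n⌉₊ + 1 := by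
      rw [Nat.cast_add, Nat.cast_sub hle, Nat.cast_one]
    have h3 : (n : ℝ) - ε / 2 * n < ((n - ⌈ε / 2 * n⌉₊ + 1 : ℕ) : ℝ) := by
      rw [h2]; linarith
    have h4 : ((n : ℝ) - ε / 2 * n) ^ 2 < ((n - ⌈ε / 2 * n⌉₊ + 1 : ℕ) : ℝ) ^ 2 := by
      have h5 : 0 ≤ (n : ℝ) - ε / 2 * n := by nlinarith
      exact pow_lt_pow_left₀ h3 h5 (by norm_num)
    have h6 : (Q : ℝ) + (n : ℝ) ^ 2 < ((n - ⌈ε / 2 * n⌉₊ + 1 : ℕ) : ℝ) ^ 2 + K₀ := by
      have h7 : ((n : ℝ) - ε / 2 * n) ^ 2 = (n : ℝ) ^ 2 - ε * (n : ℝ) ^ 2 + (ε / 2 * n) ^ 2 := by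
        ring
      have h8 : 0 ≤ (ε / 2 * n) ^ 2 := by positivity
      linarith
    exact_mod_cast h6

/-- The number of multiplications, when a positive proportion of the entries is guaranteed. -/
theorem sound_real (t : QTree K n) {ε : ℝ} (hε : 0 < ε)
    (H : DenseFor fun A B : Matrix (Fin n) (Fin n) K => ∃ a : ℕ → K,
      (Outputs t A B Q a L).Nonempty ∧ ∀ C ∈ Outputs t A B Q a L, AgreeIn K₀ C (A * B))
    (hn : 0 < n) (hQ : Q + ε * (n : ℝ) ^ 2 ≤ K₀) : (ε / 2 * n) ^ omega ≤ 2 * L := by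
  obtain ⟨A, B, -, a, ⟨C₀, hC₀⟩, h2⟩ := H 1 one_ne_zero
  obtain ⟨m, h3, h4, h5, h6⟩ := choose_m hε hn hQ (agree_le (h2 C₀ hC₀))
  refine le_trans ?_ (sound_bound t H h3 h4 h5)
  exact Real.rpow_le_rpow (by positivity) h6 omega_nonneg

end

/-- **Asymptotic form.** -/
theorem asym {K : Type} [Field K] [IsAlgClosed K] [CharZero K] {ε τ D : ℝ} (hε : 0 < ε)
    (H : ∀ N : ℕ, ∃ n : ℕ, N ≤ n ∧ ∃ (Q K₀ L : ℕ) (t : QTree K n),
      (DenseFor fun A B : Matrix (Fin n) (Fin n) K => ∃ a : ℕ → K,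
        (Outputs t A B Q a L).Nonempty ∧ ∀ C ∈ Outputs t A B Q a L, AgreeIn K₀ C (A * B)) ∧
      Q + ε * (n : ℝ) ^ 2 ≤ K₀ ∧ (L : ℝ) ≤ D * (n : ℝ) ^ τ) : omega ≤ τ := by
  by_contra hcon
  push Not at hcon
  have t1 := (tendsto_rpow_atTop (y := omega - τ) (by linarith)).comp
    (tendsto_natCast_atTop_atTop (R := ℝ))
  obtain ⟨N, hN⟩ := ((t1.eventually (Filter.eventually_gt_atTop (2 * D / (ε / 2) ^ omega))).and
    (Filter.eventually_ge_atTop 1)).exists_forall_of_atTop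
  obtain ⟨n, hn, Q, K₀, L, t, h1, h2, h3⟩ := H N
  obtain ⟨g1, g2⟩ := hN n hn
  simp only [Function.comp] at g1
  have hn0 : (0 : ℝ) < n := by exact_mod_cast g2
  have h4 := sound_real t hε h1 g2 h2
  have h5 : (ε / 2 * n) ^ omega = (ε / 2) ^ omega * (n : ℝ) ^ omega :=
    Real.mul_rpow (by positivity) hn0.le
  have h6 : (n : ℝ) ^ omega = (n : ℝ) ^ (omega - τ) * (n : ℝ) ^ τ := by
    rw [← Real.rpow_add hn0]; congr 1; ring
  have h7 : 0 < (n : ℝ) ^ τ := Real.rpow_pos_of_pos hn0 _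
  have h8 : 0 < (ε / 2 : ℝ) ^ omega := Real.rpow_pos_of_pos (by positivity) _
  rw [div_lt_iff₀ h8] at g1
  rw [h5, h6] at h4
  have h9 : 2 * (L : ℝ) ≤ 2 * D * (n : ℝ) ^ τ := by nlinarith
  have h10 : (ε / 2 : ℝ) ^ omega * ((n : ℝ) ^ (omega - τ) * (n : ℝ) ^ τ) ≤
      2 * D * (n : ℝ) ^ τ := h4.trans h9
  have h11 : 2 * D * (n : ℝ) ^ τ < (ε / 2 : ℝ) ^ omega * ((n : ℝ) ^ (omega - τ) * (n : ℝ) ^ τ) := by
    have := mul_lt_mul_of_pos_right g1 h7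
    calc 2 * D * (n : ℝ) ^ τ < (n : ℝ) ^ (omega - τ) * (ε / 2) ^ omega * (n : ℝ) ^ τ := this
      _ = _ := by ring
  linarith

section verify

variable {K : Type} [Field K] [IsAlgClosed K] [CharZero K] {n m L K₀ M : ℕ}

/-- **Verification.** -/
theorem verify_bound (t : NTree K (In3 n))
    (H : DenseFor fun A B : Matrix (Fin n) (Fin n) K =>
      (∃ C, t.Accepts (trip A B C) L) ∧ ∀ C, t.Accepts (trip A B C) L → AgreeIn K₀ C (A * B))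
    (hm0 : 0 < m) (hm : m ≤ n) (hdim : n ^ 2 < (n - m + 1) ^ 2 + K₀) :
    (m : ℝ) ^ omega ≤ 2 * L := by
  refine sound_bound (Q := 0) (K₀ := K₀) (askN (n * n) (cv t)) (fun p hp => ?_) hm0 hm (by omega)
  obtain ⟨A, B, h1, ⟨C, hC⟩, h2⟩ := H p hp
  refine ⟨A, B, h1, 0, ⟨C, ?_⟩, fun C' hC' => h2 C' ?_⟩
  · rw [outputs_verify]; exact hC
  · rw [outputs_verify] at hC'; exact hC'

/-- **Verification with finitely many false proposals.** -/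
theorem verify_list (t : NTree K (In3 n))
    (H : DenseFor fun A B : Matrix (Fin n) (Fin n) K => t.Accepts (trip A B (A * B)) L ∧
      ∃ 𝒞 : Fin M → Matrix (Fin n) (Fin n) K, ∀ C, t.Accepts (trip A B C) L → ∃ i, C = 𝒞 i)
    (hn : 0 < n) : (n : ℝ) ^ omega ≤ 2 * L := by
  refine list_bound (Q := 0) (M := M) (askN (n * n) (cv t)) (fun p hp => ?_) hn le_rfl
    (by positivity)
  obtain ⟨A, B, h1, h2, 𝒞, h3⟩ := H p hp
  refine ⟨A, B, h1, 0, 𝒞, ?_, fun C hC => h3 C ?_⟩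
  · rw [outputs_verify]; exact h2
  · rw [outputs_verify] at hC; exact hC

end verify

end Pool.Agent.Q140.VFY
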