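import Pool.Agent.W966.Vf.Gen
import Pool.Agent.W966.Vg.Defs

/-!
# Nondeterministic and interactive computation and verification of matrix products
-/

set_option autoImplicit false

namespace Pool.Agent.Q140.VFY

open MvPolynomial Pool.Agent.W966.Mm Pool.Agent.W966.Vf Pool.Agent.W966.Vg

variable {K : Type} [Field K] {n : ℕ}

/-- The inputs of an algorithm which verifies matrix products: the entries of two matrices and the
entries of the proposed product. -/
abbrev In3 (n : ℕ) : Type := Ent n ⊕ (Fin n × Fin n)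

/-- The entries of `A`, `B` and `C`. -/
def trip (A B C : Matrix (Fin n) (Fin n) K) : In3 n → K :=
  Sum.elim (entries A B) fun p => C p.1 p.2

/-- translate a linear combination: the entries of the proposed product are in registers -/
def cl (f : LF K (In3 n)) : Lin K n where
  c := f.c
  a i j := f.x (Sum.inl (Sum.inl (i, j)))
  b i j := f.x (Sum.inl (Sum.inr (i, j)))
  r s := if h : s < n * n then f.x (Sum.inr (finProdFinEquiv.symm ⟨s, h⟩)) else f.r (s - n * n)

/-- the registers agree with the proposed product and the registers of the verifier -/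
def Reg (C : Matrix (Fin n) (Fin n) K) (l : ℕ) (g G : ℕ → K) : Prop :=
  (∀ s (h : s < n * n), G s = C (finProdFinEquiv.symm ⟨s, h⟩).1 (finProdFinEquiv.symm ⟨s, h⟩).2) ∧
    ∀ s < l, G (n * n + s) = g s

lemma cl_val (f : LF K (In3 n)) (A B C : Matrix (Fin n) (Fin n) K) {l : ℕ} {g G : ℕ → K}
    (h : Reg C l g G) : (cl f).val A B (n * n + l) G = f.val (trip A B C) l g := by
  unfold Lin.val LF.val cl
  simp only [Algebra.algebraMap_self, RingHom.id_apply]
  rw [Finset.sum_range_add]
  have h1 : ∑ s ∈ Finset.range (n * n), (if h : s < n * n then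
      f.x (Sum.inr (finProdFinEquiv.symm ⟨s, h⟩)) else f.r (s - n * n)) * G s =
      ∑ p : Fin n × Fin n, f.x (Sum.inr p) * C p.1 p.2 := by
    rw [Finset.sum_range]
    rw [← Equiv.sum_comp finProdFinEquiv.symm]
    refine Finset.sum_congr rfl fun s _ => ?_
    rw [dif_pos s.2, h.1 s.1 s.2]
  have h2 : ∑ s ∈ Finset.range l, (if h : n * n + s < n * n then
      f.x (Sum.inr (finProdFinEquiv.symm ⟨n * n + s, h⟩)) else f.r (n * n + s - n * n)) *
        G (n * n + s) = ∑ s ∈ Finset.range l, f.r s * g s := by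
    refine Finset.sum_congr rfl fun s hs => ?_
    rw [dif_neg (by omega), h.2 s (Finset.mem_range.mp hs)]
    congr 2
    omega
  rw [h1, h2]
  have h3 : ∑ i, f.x i * trip A B C i =
      (∑ i, ∑ j, (f.x (Sum.inl (Sum.inl (i, j))) * A i j + f.x (Sum.inl (Sum.inr (i, j))) * B i j)) +
        ∑ p : Fin n × Fin n, f.x (Sum.inr p) * C p.1 p.2 := by
    simp only [trip, entries, Fintype.sum_sum_type, Sum.elim_inl, Sum.elim_inr,
      Fintype.sum_prod_type, Finset.sum_add_distrib]
  rw [h3]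
  ring

/-- the algorithm which guesses the product and verifies it, after the guess -/
def cv : NTree K (In3 n) → QTree K n
  | .accept => .output fun i j => ⟨0, 0, 0, Pi.single (finProdFinEquiv (i, j) : Fin (n * n)).1 1⟩
  | .reject => .div ⟨0, 0, 0, 0⟩ ⟨0, 0, 0, 0⟩ (.output fun _ _ => ⟨0, 0, 0, 0⟩)
  | .mul f h next => .mul (cl f) (cl h) (cv next)
  | .div f h next => .div (cl f) (cl h) (cv next)
  | .guess next => .query (cv next)
  | .test f yes no => .test (cl f) (cv yes) (cv no)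
  | .choose m next => .choose m fun i => cv (next i)

lemma Reg.update {C : Matrix (Fin n) (Fin n) K} {l : ℕ} {g G : ℕ → K} (h : Reg C l g G) (v : K) :
    Reg C (l + 1) (Function.update g l v) (Function.update G (n * n + l) v) := by
  refine ⟨fun s hs => ?_, fun s hs => ?_⟩
  · rw [Function.update_of_ne (by omega), h.1 s hs]
  · rcases Nat.lt_succ_iff_lt_or_eq.mp hs with h1 | rfl
    · rw [Function.update_of_ne (by omega), Function.update_of_ne (by omega), h.2 s h1]
    · rw [Function.update_self, Function.update_self]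

lemma zero_val (A B : Matrix (Fin n) (Fin n) K) (l : ℕ) (g : ℕ → K) :
    (⟨0, 0, 0, 0⟩ : Lin K n).val A B l g = 0 := by
  simp [Lin.val]

lemma out_val (A B C : Matrix (Fin n) (Fin n) K) {l : ℕ} {g G : ℕ → K} (h : Reg C l g G) :
    (Matrix.of fun i j => (⟨0, 0, 0, Pi.single (finProdFinEquiv (i, j) : Fin (n * n)).1 1⟩ :
      Lin K n).val A B (n * n + l) G) = C := by
  funext i j
  show (⟨0, 0, 0, Pi.single (finProdFinEquiv (i, j) : Fin (n * n)).1 1⟩ :
      Lin K n).val A B (n * n + l) G = C i j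
  have hlt := (finProdFinEquiv (i, j) : Fin (n * n)).2
  unfold Lin.val
  simp only [Pi.zero_apply, zero_mul, add_zero, Finset.sum_const_zero, zero_add]
  rw [Finset.sum_eq_single_of_mem _ (Finset.mem_range.mpr (by omega :
    ((finProdFinEquiv (i, j) : Fin (n * n)) : ℕ) < n * n + l))]
  · rw [Pi.single_eq_same, one_mul, h.1 _ hlt]
    have e : finProdFinEquiv.symm ⟨((finProdFinEquiv (i, j) : Fin (n * n)) : ℕ), hlt⟩ = (i, j) :=
      finProdFinEquiv.symm_apply_apply (i, j)
    rw [e]
  · intro s _ hs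
    rw [Pi.single_eq_of_ne hs, zero_mul]

/-- accepted proposals are outputs -/
lemma can_of_acc (A B C : Matrix (Fin n) (Fin n) K) (t : NTree K (In3 n)) :
    ∀ (l : ℕ) (g G : ℕ → K) (L : ℕ), Reg C l g G → t.Acc (trip A B C) l g L →
      ∃ q, (cv t).CanOutput A B (fun C' => C' = C) (n * n + l) G L q := by
  induction t with
  | accept =>
    intro l g G L hR _
    exact ⟨0, out_val A B C hR⟩
  | reject => intro l g G L _ h; exact absurd h id
  | mul f h next ih =>
    intro l g G L hR hh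
    obtain ⟨q, hq⟩ := ih _ _ _ _ (hR.update _) hh.2
    refine ⟨q, hh.1, ?_⟩
    rw [cl_val f A B C hR, cl_val h A B C hR]
    exact hq
  | div f h next ih =>
    intro l g G L hR hh
    obtain ⟨q, hq⟩ := ih _ _ _ _ (hR.update _) hh.2.2
    refine ⟨q, hh.1, ?_, ?_⟩
    · rw [cl_val h A B C hR]; exact hh.2.1
    · rw [cl_val f A B C hR, cl_val h A B C hR]
      exact hq
  | guess next ih =>
    intro l g G L hR hh
    obtain ⟨v, hv⟩ := hh
    obtain ⟨q, hq⟩ := ih _ _ _ _ (hR.update v) hv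
    exact ⟨q + 1, Nat.succ_pos _, v, hq⟩
  | test f yes no ihy ihn =>
    intro l g G L hR hh
    rcases hh with ⟨h1, h2⟩ | ⟨h1, h2⟩
    · obtain ⟨q, hq⟩ := ihy _ _ _ _ hR h2
      exact ⟨q, Or.inl ⟨by rw [cl_val f A B C hR]; exact h1, hq⟩⟩
    · obtain ⟨q, hq⟩ := ihn _ _ _ _ hR h2
      exact ⟨q, Or.inr ⟨by rw [cl_val f A B C hR]; exact h1, hq⟩⟩
  | choose m next ih =>
    intro l g G L hR hh
    obtain ⟨i, hi⟩ := hh
    obtain ⟨q, hq⟩ := ih i _ _ _ _ hR hi
    exact ⟨q, i, hq⟩

/-- outputs are accepted proposals -/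
lemma acc_of_can (A B C : Matrix (Fin n) (Fin n) K) (E : Matrix (Fin n) (Fin n) K → Prop)
    (t : NTree K (In3 n)) :
    ∀ (l : ℕ) (g G : ℕ → K) (L q : ℕ), Reg C l g G →
      (cv t).CanOutput A B E (n * n + l) G L q →
      t.Acc (trip A B C) l g L ∧ E C := by
  induction t with
  | accept =>
    intro l g G L q hR h
    refine ⟨trivial, ?_⟩
    have := out_val A B C hR
    rw [← this]
    exact h
  | reject =>
    intro l g G L q _ h
    exact absurd (zero_val A B _ _) h.2.1
  | mul f h next ih =>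
    intro l g G L q hR hh
    have h2 := hh.2
    rw [cl_val f A B C hR, cl_val h A B C hR] at h2
    obtain ⟨h3, h4⟩ := ih _ _ _ _ _ (hR.update _) h2
    exact ⟨⟨hh.1, h3⟩, h4⟩
  | div f h next ih =>
    intro l g G L q hR hh
    have h2 := hh.2.2
    have h1 := hh.2.1
    rw [cl_val h A B C hR] at h1
    rw [cl_val f A B C hR, cl_val h A B C hR] at h2
    obtain ⟨h3, h4⟩ := ih _ _ _ _ _ (hR.update _) h2
    exact ⟨⟨hh.1, h1, h3⟩, h4⟩
  | guess next ih =>
    intro l g G L q hR hh
    obtain ⟨-, v, hv⟩ := hh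
    obtain ⟨h3, h4⟩ := ih _ _ _ _ _ (hR.update v) hv
    exact ⟨⟨v, h3⟩, h4⟩
  | test f yes no ihy ihn =>
    intro l g G L q hR hh
    rcases hh with ⟨h1, h2⟩ | ⟨h1, h2⟩
    · rw [cl_val f A B C hR] at h1
      obtain ⟨h3, h4⟩ := ihy _ _ _ _ _ hR h2
      exact ⟨Or.inl ⟨h1, h3⟩, h4⟩
    · rw [cl_val f A B C hR] at h1
      obtain ⟨h3, h4⟩ := ihn _ _ _ _ _ hR h2
      exact ⟨Or.inr ⟨h1, h3⟩, h4⟩
  | choose m next ih =>
    intro l g G L q hR hh
    obtain ⟨i, hi⟩ := hh
    obtain ⟨h3, h4⟩ := ih i _ _ _ _ _ hR hi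
    exact ⟨⟨i, h3⟩, h4⟩

/-- inversion of `askN` -/
lemma can_of_askN (A B : Matrix (Fin n) (Fin n) K) (E : Matrix (Fin n) (Fin n) K → Prop)
    (t : QTree K n) (N : ℕ) : ∀ (l : ℕ) (g : ℕ → K) (L q : ℕ),
      (askN N t).CanOutput A B E l g L q →
      ∃ (g' : ℕ → K) (q' : ℕ), t.CanOutput A B E (l + N) g' L q' := by
  induction N with
  | zero => intro l g L q h; exact ⟨g, q, h⟩
  | succ N ih =>
    intro l g L q h
    obtain ⟨-, v, hv⟩ := h
    obtain ⟨g', q', h'⟩ := ih _ _ _ _ hv
    refine ⟨g', q', ?_⟩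
    rw [show l + (N + 1) = l + 1 + N by omega]
    exact h'

/-- the registers contain a proposal -/
lemma exists_reg (G : ℕ → K) : ∃ C : Matrix (Fin n) (Fin n) K, Reg C 0 0 G := by
  refine ⟨Matrix.of fun i j => G (finProdFinEquiv (i, j) : Fin (n * n)), fun s hs => ?_,
    fun s hs => absurd hs (Nat.not_lt_zero s)⟩
  show G s = G (finProdFinEquiv (_, _) : Fin (n * n))
  congr 1
  rw [Prod.mk.eta, Equiv.apply_symm_apply]

/-- **The outputs of the algorithm which guesses a product and verifies it.** -/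
theorem outputs_verify (A B : Matrix (Fin n) (Fin n) K) (t : NTree K (In3 n)) (L : ℕ) :
    Outputs (askN (n * n) (cv t)) A B 0 0 L = {C | t.Accepts (trip A B C) L} := by
  ext C
  constructor
  · rintro ⟨q, hq⟩
    obtain ⟨g', q', h'⟩ := can_of_askN A B _ _ _ _ _ _ _ hq
    obtain ⟨C', hC'⟩ := exists_reg (n := n) g'
    rw [show 0 + n * n = n * n + 0 by omega] at h'
    obtain ⟨h1, h2⟩ := acc_of_can A B C' _ t 0 0 g' L q' hC' h'
    have h3 : C' = C := h2
    rw [← h3]
    exact h1
  · intro hC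
    let G : ℕ → K := fun s => if h : s < n * n then
      C (finProdFinEquiv.symm ⟨s, h⟩).1 (finProdFinEquiv.symm ⟨s, h⟩).2 else 0
    have hR : Reg C 0 0 G := ⟨fun s hs => dif_pos hs, fun s hs => absurd hs (Nat.not_lt_zero s)⟩
    obtain ⟨q, hq⟩ := can_of_acc A B C t 0 0 G L hR hC
    refine ⟨q + n * n, ?_⟩
    refine askN_can G (n * n) 0 0 (fun s hs => ?_) ?_
    · rcases hs with hs | hs
      · exact absurd hs (Nat.not_lt_zero s)
      · exact dif_neg (by omega)
    · rw [show 0 + n * n = n * n + 0 by omega]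
      exact hq

end Pool.Agent.Q140.VFY
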